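import Pool.Agent.H28.GN.T3

/-!
Theorem G, row DNG: the flags are dense at a good scale.
-/

set_option autoImplicit false

open MeasureTheory ProbabilityTheory Filter Topology Finset
open scoped Nat ENNReal

namespace Pool.Agent.H51.GNG

open Pool.Agent.H28.GN
open Pool.Agent.H24.T2 (Pset)
open Pool.Agent.H67.AG (avgP)
open Pool.Agent.H28.LF (Um Xi Yi shX shY xiY flY CompY GoodC sY)

theorem sum_Bx (J H : ℕ) (f : (Fin J → Bool → ℕ) → ℝ) :
    ∑ t ∈ Bx J H, f t = ∑ t : Fin J → Bool → Fin H, f (fun j e => (t j e : ℕ)) := by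
  classical
  have h1 : Bx J H = (univ : Finset (Fin J → Bool → Fin H)).image
      (fun t j e => (t j e : ℕ)) := by
    ext t
    simp only [Bx, Fintype.mem_piFinset, mem_range, mem_image, mem_univ, true_and]
    constructor
    · intro h
      exact ⟨fun j e => ⟨t j e, h j e⟩, rfl⟩
    · rintro ⟨a, rfl⟩ j e
      exact (a j e).2
  rw [h1, Finset.sum_image]
  intro a _ a' _ h
  funext j e
  exact Fin.ext (congrFun (congrFun h j) e)

/-- one prime -/
theorem one_prime (hA : T_ACT) (J c b s : ℕ) [Nonempty (PtG J c b (2 ^ s))] (ε : ℝ) (hε : 0 < ε)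
    (hc : 0 < c) (hb : 4 ^ J * (2 * b / (2 : ℝ) ^ s) ≤ ε / 4) (q : (Fin J → Bool → ℕ) → ℝ)
    (hq : ∀ t, q t ≤ 1)
    (hs : ε * ((2 : ℝ) ^ s) ^ (2 * J) ≤ ∑ t ∈ Bx J (2 ^ s), q t) :
    ε / 4 ≤ ((univ.filter fun t : PtG J c b (2 ^ s) => ε / 2 ≤ q (tn t)).card : ℝ) /
      Fintype.card (PtG J c b (2 ^ s)) := by
  classical
  set N : ℝ := ((2 : ℝ) ^ s) ^ (2 * J) with hN
  have hN0 : 0 < N := by positivity
  have hcard : (Fintype.card (Fin J → Bool → Fin (2 ^ s)) : ℝ) = N := by
    rw [Fintype.card_fun, Fintype.card_fun, Fintype.card_fin, Fintype.card_bool, Fintype.card_fin,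
      hN]
    push_cast
    rw [← pow_mul]
  rw [sum_Bx] at hs
  set v : (Fin J → Bool → Fin (2 ^ s)) → (Fin J → Bool → ℕ) := fun t j e => (t j e : ℕ) with hv
  set A := univ.filter fun t : Fin J → Bool → Fin (2 ^ s) => ε / 2 ≤ q (v t) with hAd
  -- the sum
  have h1 : ∑ t : Fin J → Bool → Fin (2 ^ s), q (v t) ≤ (A.card : ℝ) + ε / 2 * N := by
    have h2 : ∀ t : Fin J → Bool → Fin (2 ^ s), q (v t) ≤
        (if ε / 2 ≤ q (v t) then (1 : ℝ) else 0) + ε / 2 := by
      intro t
      split_ifs with h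
      · have := hq (v t)
        linarith
      · linarith [not_le.mp h]
    calc ∑ t : Fin J → Bool → Fin (2 ^ s), q (v t)
        ≤ ∑ t : Fin J → Bool → Fin (2 ^ s), ((if ε / 2 ≤ q (v t) then (1 : ℝ) else 0) + ε / 2) :=
          Finset.sum_le_sum fun t _ => h2 t
      _ = (A.card : ℝ) + ε / 2 * N := by
          rw [Finset.sum_add_distrib, Finset.sum_boole, Finset.sum_const, Finset.card_univ,
            nsmul_eq_mul, hcard]
          ring
  have h2 : ε / 2 * N ≤ (A.card : ℝ) := by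
    have : ε * N ≤ (A.card : ℝ) + ε / 2 * N := le_trans hs h1
    linarith
  -- the inactive boxes
  have h3 : ((univ.filter fun t : Fin J → Bool → Fin (2 ^ s) => ¬ Act J c b (2 ^ s) t).card : ℝ) ≤
      ε / 4 * N := by
    have h := hA J c b (2 ^ s) hc (by positivity)
    push_cast at h
    refine le_trans h ?_
    exact mul_le_mul_of_nonneg_right hb hN0.le
  -- the active boxes in A
  have h4 : A.card ≤ (A.filter fun t => Act J c b (2 ^ s) t).card +
      (univ.filter fun t : Fin J → Bool → Fin (2 ^ s) => ¬ Act J c b (2 ^ s) t).card := by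
    have h5 := Finset.card_filter_add_card_filter_not (s := A) (fun t => Act J c b (2 ^ s) t)
    have h6 : (A.filter fun t => ¬ Act J c b (2 ^ s) t).card ≤
        (univ.filter fun t : Fin J → Bool → Fin (2 ^ s) => ¬ Act J c b (2 ^ s) t).card :=
      Finset.card_le_card (Finset.filter_subset_filter _ (Finset.subset_univ _))
    omega
  have h5 : (A.filter fun t => Act J c b (2 ^ s) t).card =
      (univ.filter fun t : PtG J c b (2 ^ s) => ε / 2 ≤ q (tn t)).card := by
    symm
    refine Finset.card_bij (fun t _ => t.1) ?_ ?_ ?_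
    · intro t ht
      rw [mem_filter] at ht
      rw [mem_filter, hAd, mem_filter]
      exact ⟨⟨mem_univ _, ht.2⟩, t.2⟩
    · intro t _ t' _ h
      exact Subtype.ext h
    · intro t ht
      rw [mem_filter, hAd, mem_filter] at ht
      exact ⟨⟨t, ht.2⟩, mem_filter.mpr ⟨mem_univ _, ht.1.2⟩, rfl⟩
  have h6 : (Fintype.card (PtG J c b (2 ^ s)) : ℝ) ≤ N := by
    rw [← hcard]
    exact_mod_cast Fintype.card_subtype_le _
  have h7 : (0 : ℝ) < Fintype.card (PtG J c b (2 ^ s)) := by
    exact_mod_cast Fintype.card_pos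
  rw [le_div_iff₀ h7, ← h5]
  have h8 : (A.card : ℝ) ≤ ((A.filter fun t => Act J c b (2 ^ s) t).card : ℝ) +
      ((univ.filter fun t : Fin J → Bool → Fin (2 ^ s) => ¬ Act J c b (2 ^ s) t).card : ℝ) := by
    exact_mod_cast h4
  have h9 : ε / 4 * (Fintype.card (PtG J c b (2 ^ s)) : ℝ) ≤ ε / 4 * N :=
    mul_le_mul_of_nonneg_left h6 (by positivity)
  linarith

/-- DNG: the flags are dense at a good scale. -/
theorem pf_DNG (hQ : T_AVQ) (hN : T_NUP) (hA : T_ACT) : T_DNG := by
  classical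
  intro u c J b s i m' ε γ₀ F B ν _ hu hc hν hF hε hb hG
  have hkey : ∀ p ∈ Pset 2 m', ε / 4 * sY F ν p ≤
      (∑ t : PtG J c b (2 ^ s), sG u (ε / 2) F ν t p) / Fintype.card (PtG J c b (2 ^ s)) := by
    intro p hp
    have hpp : p.Prime := by
      unfold Pset at hp
      simp only [mem_filter] at hp
      tauto
    by_cases h : ν.real (xiY p ⁻¹' F) = 1
    · obtain ⟨h1, h2, h3, h4⟩ := hN ν p hν hpp
      have h5 : (nuP p ν).real F = 1 := h4 F hF.1 hF.2.1 h
      have h6 := hF.2.2 (nuP p ν) h1 h2.toMeasurePreserving h5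
      obtain ⟨h7, h8, -⟩ := hQ u c J s (nuP p ν) hu.1 h1 h2
      have h9 := one_prime hA J c b s ε hε hc hb (fun t => qT u c t (nuP p ν))
        (fun t => (h7 t).2) (h8 ε h6)
      have h10 : sY F ν p = 1 := by
        unfold sY
        rw [if_pos h]
      have h11 : ∑ t : PtG J c b (2 ^ s), sG u (ε / 2) F ν t p =
          ((univ.filter fun t : PtG J c b (2 ^ s) => ε / 2 ≤ qT u c (tn t) (nuP p ν)).card : ℝ) := by
        rw [← Finset.sum_boole]
        refine Finset.sum_congr rfl fun t _ => ?_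
        unfold sG
        by_cases h12 : ε / 2 ≤ qT u c (tn t) (nuP p ν)
        · rw [if_pos ⟨h, h12⟩, if_pos h12]
        · rw [if_neg (fun h13 => h12 h13.2), if_neg h12]
      rw [h10, h11, mul_one]
      exact h9
    · have h10 : sY F ν p = 0 := by
        unfold sY
        rw [if_neg h]
      rw [h10, mul_zero]
      refine div_nonneg (Finset.sum_nonneg fun t _ => ?_) (Nat.cast_nonneg _)
      unfold sG
      split_ifs <;> norm_num
  have h1 := hG.dens
  have h2 : ε / 4 * avgP 2 m' (sY F ν) ≤ avgP 2 m' (fun p =>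
      (∑ t : PtG J c b (2 ^ s), sG u (ε / 2) F ν t p) / Fintype.card (PtG J c b (2 ^ s))) := by
    unfold avgP
    rw [← mul_div_assoc, Finset.mul_sum]
    exact div_le_div_of_nonneg_right (Finset.sum_le_sum hkey) (Nat.cast_nonneg _)
  refine le_trans ?_ h2
  rw [mul_comm]
  exact mul_le_mul_of_nonneg_left h1 (by positivity)

end Pool.Agent.H51.GNG
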