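import Pool.Agent.H28.GN.T3

/-!
Theorem G, row GWN: windows (after row WIN of project LF, helper11, and row VWN, helper67).
-/

set_option autoImplicit false

open MeasureTheory ProbabilityTheory Filter Topology Finset
open scoped Nat ENNReal

namespace Pool.Agent.H51.GNG

open Pool.Agent.H28.GN
open Pool.Agent.H28.LF (Um)

/-- one window, for a function with values in `[0, 1]` -/
theorem win_step (f : ℕ → ℝ) (hf0 : ∀ n, 0 ≤ f n) (hf1 : ∀ n, f n ≤ 1) (ε : ℝ)
    (hε : 0 < ε) (M : ℝ) (hM : 0 ≤ M)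
    (hf : ∀ C : ℕ, ∃ x y : ℕ, 0 < x ∧ C * x ≤ y ∧
      ε * Real.log ((y : ℝ) / x) < ∑ n ∈ Icc x y, f n / n) (B : ℕ) :
    ∃ x y : ℕ, 0 < x ∧ x ≤ y ∧ B < x ∧ M ≤ Real.log ((y : ℝ) / x) ∧
      ε / 2 * Real.log ((y : ℝ) / x) ≤ ∑ n ∈ Icc x y, f n / n := by
  obtain ⟨C, hC1⟩ := exists_nat_ge (((B : ℝ) + 1) * Real.exp M + Real.exp (2 * B / ε))
  have e1 : 0 < Real.exp (2 * B / ε) := Real.exp_pos _
  have e2 : 1 ≤ Real.exp M := Real.one_le_exp hM
  have hB0 : (0 : ℝ) ≤ B := Nat.cast_nonneg B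
  have hCB : ((B : ℝ) + 1) * Real.exp M ≤ C := by linarith
  have hCe : Real.exp (2 * B / ε) ≤ C := by
    have : 0 ≤ ((B : ℝ) + 1) * Real.exp M := by positivity
    linarith
  have hCB' : (B : ℝ) + 1 ≤ C := by
    have : (B : ℝ) + 1 ≤ ((B : ℝ) + 1) * Real.exp M := le_mul_of_one_le_right (by linarith) e2
    linarith
  have hCBn : B + 1 ≤ C := by exact_mod_cast hCB'
  obtain ⟨x₀, y, hx0, hxy, hs⟩ := hf C
  have hx0' : (1 : ℝ) ≤ x₀ := by exact_mod_cast hx0
  have hxy' : (C : ℝ) * x₀ ≤ y := by exact_mod_cast hxy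
  have hC0 : (0 : ℝ) < C := by linarith
  have hx : max x₀ (B + 1) ≤ y := by
    refine max_le ?_ ?_
    · exact le_trans (Nat.le_mul_of_pos_left x₀ (by omega)) hxy
    · exact le_trans (le_trans hCBn (Nat.le_mul_of_pos_right C hx0)) hxy
  have hyp : (0 : ℝ) < y := by
    have : (0 : ℝ) < (C : ℝ) * x₀ := by positivity
    linarith
  have hxpos : (0 : ℝ) < (max x₀ (B + 1) : ℕ) := by
    have : 0 < max x₀ (B + 1) := lt_of_lt_of_le hx0 (le_max_left _ _)
    exact_mod_cast this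
  have hxle : ((max x₀ (B + 1) : ℕ) : ℝ) ≤ ((B : ℝ) + 1) * x₀ := by
    have : max x₀ (B + 1) ≤ (B + 1) * x₀ := by
      refine max_le ?_ ?_
      · exact Nat.le_mul_of_pos_left x₀ (by omega)
      · exact Nat.le_mul_of_pos_right (B + 1) hx0
    exact_mod_cast this
  have hlog1 : M ≤ Real.log ((y : ℝ) / (max x₀ (B + 1) : ℕ)) := by
    rw [Real.le_log_iff_exp_le (by positivity), le_div_iff₀ hxpos]
    calc Real.exp M * ((max x₀ (B + 1) : ℕ) : ℝ)
        ≤ Real.exp M * (((B : ℝ) + 1) * x₀) :=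
          mul_le_mul_of_nonneg_left hxle (Real.exp_pos _).le
      _ = (((B : ℝ) + 1) * Real.exp M) * x₀ := by ring
      _ ≤ C * x₀ := mul_le_mul_of_nonneg_right hCB (by linarith)
      _ ≤ y := hxy'
  have hlog2 : 2 * B / ε ≤ Real.log ((y : ℝ) / x₀) := by
    rw [Real.le_log_iff_exp_le (by positivity), le_div_iff₀ (by linarith)]
    calc Real.exp (2 * B / ε) * (x₀ : ℝ) ≤ C * x₀ :=
          mul_le_mul_of_nonneg_right hCe (by linarith)
      _ ≤ y := hxy'
  have hlog3 : Real.log ((y : ℝ) / (max x₀ (B + 1) : ℕ)) ≤ Real.log ((y : ℝ) / x₀) := by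
    apply Real.log_le_log (by positivity)
    apply div_le_div_of_nonneg_left hyp.le (by linarith)
    exact_mod_cast le_max_left x₀ (B + 1)
  -- the sum
  have hrem : ∑ n ∈ Icc x₀ y, f n / n ≤
      (B : ℝ) + ∑ n ∈ Icc (max x₀ (B + 1)) y, f n / n := by
    have hsub : Icc x₀ y ⊆ Icc 1 B ∪ Icc (max x₀ (B + 1)) y := by
      intro n hn
      rw [Finset.mem_Icc] at hn
      rw [Finset.mem_union, Finset.mem_Icc, Finset.mem_Icc]
      by_cases h : n ≤ B
      · left; exact ⟨by omega, h⟩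
      · right; exact ⟨max_le hn.1 (by omega), hn.2⟩
    have hnn : ∀ n : ℕ, 0 ≤ f n / n := fun n => div_nonneg (hf0 n) (Nat.cast_nonneg n)
    have hdis : Disjoint (Icc 1 B) (Icc (max x₀ (B + 1)) y) := by
      rw [Finset.disjoint_left]
      intro n hn hn'
      rw [Finset.mem_Icc] at hn hn'
      have := le_trans (le_max_right x₀ (B + 1)) hn'.1
      omega
    calc ∑ n ∈ Icc x₀ y, f n / n
        ≤ ∑ n ∈ Icc 1 B ∪ Icc (max x₀ (B + 1)) y, f n / n :=
          Finset.sum_le_sum_of_subset_of_nonneg hsub (fun n _ _ => hnn n)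
      _ = ∑ n ∈ Icc 1 B, f n / n + ∑ n ∈ Icc (max x₀ (B + 1)) y, f n / n :=
          Finset.sum_union hdis
      _ ≤ (B : ℝ) + ∑ n ∈ Icc (max x₀ (B + 1)) y, f n / n := by
          have : ∑ n ∈ Icc 1 B, f n / n ≤ ∑ n ∈ Icc 1 B, (1 : ℝ) := by
            apply Finset.sum_le_sum
            intro n hn
            rw [Finset.mem_Icc] at hn
            have hn1 : (1 : ℝ) ≤ n := by exact_mod_cast hn.1
            rw [div_le_one (by linarith)]
            exact le_trans (hf1 n) hn1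
          have h2 : ∑ n ∈ Icc 1 B, (1 : ℝ) = B := by
            rw [Finset.sum_const, Nat.card_Icc, nsmul_eq_mul, mul_one]
            norm_num
          linarith
  refine ⟨max x₀ (B + 1), y, lt_of_lt_of_le hx0 (le_max_left _ _), hx,
    lt_of_lt_of_le (Nat.lt_succ_self B) (le_max_right _ _), hlog1, ?_⟩
  have h3 : (B : ℝ) ≤ ε / 2 * Real.log ((y : ℝ) / x₀) := by
    have := mul_le_mul_of_nonneg_left hlog2 (by positivity : (0 : ℝ) ≤ ε / 2)
    have h4 : ε / 2 * (2 * B / ε) = B := by field_simp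
    linarith
  have h5 : ε / 2 * Real.log ((y : ℝ) / (max x₀ (B + 1) : ℕ)) ≤
      ε / 2 * Real.log ((y : ℝ) / x₀) :=
    mul_le_mul_of_nonneg_left hlog3 (by positivity)
  have h6 : ε * Real.log ((y : ℝ) / x₀) =
    ε / 2 * Real.log ((y : ℝ) / x₀) + ε / 2 * Real.log ((y : ℝ) / x₀) := by ring
  linarith

/-- GWN: disjoint long windows on which the core fails. -/
theorem pf_GWN (hB : T_BDG) : T_GWN := by
  intro u c J hu hn
  unfold CoreG at hn
  push Not at hn
  obtain ⟨ε, hε, hf⟩ := hn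
  have h2 : ∀ j : ℕ, 0 < 2 ^ j := fun j => by positivity
  have hS := fun j : ℕ => (hB u c J (2 ^ j) (2 ^ j) hu.1 (h2 j) (h2 j)).1
  have st : ∀ j B : ℕ, _ := fun j B =>
    win_step (fun n => DG u c J (2 ^ j) (2 ^ j) (wN n)) (fun n => (hS j (wN n)).1)
      (fun n => (hS j (wN n)).2) ε hε ((j : ℝ) * 8 ^ j) (by positivity)
      (fun C => by
        obtain ⟨x, y, h3, h4, h5⟩ := hf (2 ^ j) C (h2 j)
        exact ⟨x, y, h3, h4, h5⟩) B
  choose x y h1 h2' h3 h4 h5 using st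
  let Y : ℕ → ℕ := fun j => Nat.rec (y 0 0) (fun k r => y (k + 1) r) j
  let b : ℕ → ℕ := fun j => Nat.rec 0 (fun k _ => Y k) j
  have hY : ∀ j, Y j = y j (b j) := by
    intro j
    cases j with
    | zero => rfl
    | succ k => rfl
  refine ⟨ε / 2, fun j => x j (b j), fun j => y j (b j), by positivity,
    fun j => ⟨h1 _ _, h2' _ _, ?_⟩, fun j => h4 _ _, fun j => h5 _ _⟩
  have : b (j + 1) = y j (b j) := by
    rw [← hY j]
  show y j (b j) < x (j + 1) (b (j + 1))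
  rw [this]
  exact h3 _ _

end Pool.Agent.H51.GNG
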